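import Mathlib
import Pool.Agent.Q155.Simp.Defs
import Pool.Agent.Q155.Simp.Model
import Pool.Agent.Q155.Simp.Ref

/-!
# MP_b12348_gt: a simplicial refinement that does not factor through the projection simplex
-/

set_option autoImplicit false
open Set Pool.Agent.Q155.Simp

namespace Pool.Agent.Results.MP_b12348_gt.NoFactorisation

/-- the refinement `(T, Forms T, f, g)` of `(C, Forms C)` factors through the projection
`p z = ∑ i, z i • c i` of the standard simplex `T0` with vertices `e i` onto `C` -/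
def Factors {E F : Type*} [AddCommGroup E] [Module ℝ E] [AddCommGroup F] [Module ℝ F]
    (C : Set E) {m : ℕ} (c : Fin m → E) (T : Set F) (Df : Set F) (f : F → E) (Dg : Set (T → ℝ))
    (g : (T → ℝ) → (C → ℝ)) : Prop :=
  ∃ (Dg0 : Set (stdSimplex ℝ (Fin m) → ℝ)) (g0 : (stdSimplex ℝ (Fin m) → ℝ) → (C → ℝ))
    (Df' : Set F) (f' : F → (Fin m → ℝ)) (Dg' : Set (T → ℝ))
    (g' : (T → ℝ) → (stdSimplex ℝ (Fin m) → ℝ)),
    IsRefinement C (stdSimplex ℝ (Fin m)) (stdSimplex ℝ (Fin m)) (fun z => ∑ i, z i • c i) Dg0 g0 ∧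
    IsRefinement (stdSimplex ℝ (Fin m)) T Df' f' Dg' g' ∧
    Df = {x | x ∈ Df' ∧ f' x ∈ stdSimplex ℝ (Fin m)} ∧
    (∀ x ∈ Df, f x = ∑ i, f' x i • c i) ∧
    Dg = {w | w ∈ Dg' ∧ g' w ∈ Dg0} ∧
    (∀ w ∈ Dg, g w = g0 (g' w))

theorem result : ∃ (C : Set (Fin 3 → ℝ)) (m : ℕ) (c : Fin m → (Fin 3 → ℝ))
    (T : Set (Fin 3 ⊕ Fin 3 → ℝ)) (v : Fin 3 ⊕ Fin 3 → (Fin 3 ⊕ Fin 3 → ℝ))
    (Df : Set (Fin 3 ⊕ Fin 3 → ℝ)) (f : (Fin 3 ⊕ Fin 3 → ℝ) → (Fin 3 → ℝ)) (Dg : Set (T → ℝ))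
    (g : (T → ℝ) → (C → ℝ)),
    IsPolytope C ∧ ¬ IsSimplex C ∧ Function.Injective c ∧ range c = C.extremePoints ℝ ∧
    IsSimplexWith T v ∧ IsRefinement C T Df f Dg g ∧ ¬ Factors C c T Df f Dg g := by
  classical
  obtain ⟨Dg, g, h⟩ := exists_refinement_Dif (n := 3) (by omega)
  have h01 : (0 : Fin 3) ≠ 1 := by decide
  have h02 : (0 : Fin 3) ≠ 2 := by decide
  -- enumerate the extreme points
  obtain ⟨e⟩ : Nonempty (Fin (Fintype.card {a : Fin 3 × Fin 3 // a.1 ≠ a.2}) ≃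
    {a : Fin 3 × Fin 3 // a.1 ≠ a.2}) := ⟨(Fintype.equivFin _).symm⟩
  set c : Fin (Fintype.card {a : Fin 3 × Fin 3 // a.1 ≠ a.2}) → (Fin 3 → ℝ) :=
    fun i => pt (e i).1.1 (e i).1.2 with hc
  have hcinj : Function.Injective c := by
    intro i j hij
    have := pt_injective (e i).2 (e j).2 hij
    exact e.injective (Subtype.ext (Prod.ext this.1 this.2))
  refine ⟨Dif 3, _, c, TT 3, fun k => (Pi.single k (1 : ℝ) : Fin 3 ⊕ Fin 3 → ℝ), DD 3, ff, Dg, g,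
    isPolytope_Dif (by omega), not_isSimplex_Dif (by omega), hcinj, ?_, isSimplexWith_TT 3, h, ?_⟩
  · rw [extremePoints_Dif (by omega)]
    ext x
    constructor
    · rintro ⟨i, rfl⟩
      exact ⟨e i, rfl⟩
    · rintro ⟨a, rfl⟩
      exact ⟨e.symm a, by simp [hc]⟩
  rintro ⟨Dg0, g0, Df', f', Dg', g', -, h', hDf, hf, -, -⟩
  -- the points over `pt 0 j`
  have key : ∀ j : Fin 3, (0 : Fin 3) ≠ j → ∃ w ∈ DD 3, ff w = pt 0 j ∧
      w = (1 / 2 : ℝ) • (Pi.single (Sum.inl 0) (1 : ℝ) : Fin 3 ⊕ Fin 3 → ℝ) +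
        (1 - 1 / 2 : ℝ) • (Pi.single (Sum.inr j) (1 : ℝ) : Fin 3 ⊕ Fin 3 → ℝ) := by
    intro j hj
    have hs : ∀ k : Fin 3 ⊕ Fin 3, (Pi.single k (1 : ℝ) : Fin 3 ⊕ Fin 3 → ℝ) ∈ TT 3 :=
      fun k => single_mem_stdSimplex ℝ k
    refine ⟨_, ⟨convex_stdSimplex ℝ _ (hs (Sum.inl 0)) (hs (Sum.inr j)) (by norm_num)
      (by norm_num) (by norm_num), ?_⟩, ?_, rfl⟩
    · simp only [Pi.add_apply, Pi.smul_apply, smul_eq_mul, Pi.single_apply, Fin.sum_univ_three]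
      simp
    · funext i
      simp only [ff, pt, Pi.add_apply, Pi.smul_apply, smul_eq_mul, Pi.single_apply,
        Sum.inl.injEq, Sum.inr.injEq, reduceCtorEq, if_false]
      split_ifs <;> norm_num
  -- `f'` maps them to vertices
  have hvert : ∀ j : Fin 3, (0 : Fin 3) ≠ j → ∀ w ∈ DD 3, ff w = pt 0 j →
      ∀ i, f' w i ≠ 0 → c i = pt 0 j := by
    intro j hj w hw hwj i hi
    have h1 : w ∈ {x | x ∈ Df' ∧ f' x ∈ stdSimplex ℝ (Fin _)} := by rw [← hDf]; exact hw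
    have h2 := hf w hw
    rw [hwj] at h2
    have h3 : ∀ i, c i ∈ Dif 3 := fun i => pt_mem _ _
    have h4 : ∑ i, f' w i * (1 - (c i 0 - c i j)) = 0 := by
      have h5 := congrFun h2 0
      have h6 := congrFun h2 j
      rw [Finset.sum_apply] at h5 h6
      simp only [Pi.smul_apply, smul_eq_mul] at h5 h6
      have h7 := pt_sub_eq_one hj
      rw [h5, h6] at h7
      have h8 := h1.2.2
      have h9 : ∑ i, f' w i * (1 - (c i 0 - c i j)) = ∑ i, f' w i - (∑ i, f' w i * c i 0 -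
          ∑ i, f' w i * c i j) := by
        rw [← Finset.sum_sub_distrib, ← Finset.sum_sub_distrib]
        exact Finset.sum_congr rfl fun i _ => by ring
      rw [h9, h8, h7]
      norm_num
    have h5 := (Finset.sum_eq_zero_iff_of_nonneg (fun i _ =>
      mul_nonneg (h1.2.1 i) (sub_nonneg.2 (sub_le_one (h3 i) hj)))).1 h4 i (Finset.mem_univ _)
    rcases mul_eq_zero.1 h5 with h6 | h6
    · exact absurd h6 hi
    · exact eq_pt_of_sub_eq_one (h3 i) hj (by linarith)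
  obtain ⟨x, hx, hxf, hxe⟩ := key 1 h01
  obtain ⟨y, hy, hyf, hye⟩ := key 2 h02
  have hx' : x ∈ {x | x ∈ Df' ∧ f' x ∈ stdSimplex ℝ (Fin _)} := by rw [← hDf]; exact hx
  have hy' : y ∈ {x | x ∈ Df' ∧ f' x ∈ stdSimplex ℝ (Fin _)} := by rw [← hDf]; exact hy
  set a := e.symm ⟨(0, 1), h01⟩ with ha
  have hca : c a = pt 0 1 := by simp [hc, ha]
  have hxa : f' x a = 1 := by
    rw [← hx'.2.2]
    symm
    refine Finset.sum_eq_single a ?_ (by simp)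
    intro i _ hia
    by_contra hne
    exact hia (hcinj ((hvert 1 h01 x hx hxf i hne).trans hca.symm))
  have hya : f' y a = 0 := by
    by_contra hne
    have := hvert 2 h02 y hy hyf a hne
    rw [hca] at this
    exact absurd (pt_injective h01 h02 this).2 (by decide)
  -- the coordinate form
  set ε : stdSimplex ℝ (Fin (Fintype.card {a : Fin 3 × Fin 3 // a.1 ≠ a.2})) → ℝ :=
    fun z => z.1 a with hε
  have hεF : ε ∈ Forms (stdSimplex ℝ (Fin (Fintype.card {a : Fin 3 × Fin 3 // a.1 ≠ a.2}))) := by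
    refine ⟨fun z => ⟨z.2.1 a, ?_⟩, fun u v z t _ _ h => ?_⟩
    · rw [hε, ← z.2.2]
      exact Finset.single_le_sum (fun i _ => z.2.1 i) (Finset.mem_univ a)
    · exact congrFun h a
  obtain ⟨w, hw, hwε⟩ : ε ∈ g' '' Dg' := by rw [h'.g_aff.onto]; exact hεF
  have hwF := h'.g_aff.sub hw
  have e1 := h'.dual ⟨x, hx.1⟩ ⟨f' x, hx'.2⟩ hx'.1 rfl w hw
  have e2 := h'.dual ⟨y, hy.1⟩ ⟨f' y, hy'.2⟩ hy'.1 rfl w hw
  rw [hwε] at e1 e2
  replace e1 : f' x a = w ⟨x, hx.1⟩ := e1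
  replace e2 : f' y a = w ⟨y, hy.1⟩ := e2
  rw [hxa] at e1
  rw [hya] at e2
  have hs : ∀ k : Fin 3 ⊕ Fin 3, (Pi.single k (1 : ℝ) : Fin 3 ⊕ Fin 3 → ℝ) ∈ TT 3 :=
    fun k => single_mem_stdSimplex ℝ k
  have e3 := hwF.2 ⟨_, hs (Sum.inl 0)⟩ ⟨_, hs (Sum.inr 1)⟩ ⟨x, hx.1⟩ (1 / 2) (by norm_num)
    (by norm_num) hxe
  have e4 := hwF.2 ⟨_, hs (Sum.inl 0)⟩ ⟨_, hs (Sum.inr 2)⟩ ⟨y, hy.1⟩ (1 / 2) (by norm_num)
    (by norm_num) hye
  rw [← e1] at e3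
  rw [← e2] at e4
  have b1 := (hwF.1 ⟨_, hs (Sum.inl 0)⟩).2
  have b2 := (hwF.1 ⟨_, hs (Sum.inr 1)⟩).2
  have b3 := (hwF.1 ⟨_, hs (Sum.inl 0)⟩).1
  have b4 := (hwF.1 ⟨_, hs (Sum.inr 2)⟩).1
  linarith

end Pool.Agent.Results.MP_b12348_gt.NoFactorisation
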